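import Pool.Agent.helper29.NS.SpecC
import Pool.Agent.helper31.NS.Calc

/-! Project ns: (MP_b9b054_an), part C, module CX1. -/

set_option autoImplicit false

namespace NS

open MeasureTheory Filter Topology Set

lemma CX1_cont {f : ℝ × ℝ × ℝ → ℝ} (hf : ContDiff ℝ 1 f) (v : ℝ × ℝ × ℝ) :
    Continuous (fun z => fderiv ℝ f z v) :=
  (hf.continuous_fderiv (by norm_num)).clm_apply continuous_const

lemma CX1_dtc {f : ℝ × ℝ × ℝ → ℝ} (hf : ContDiff ℝ 1 f) : Continuous (dt f) := CX1_cont hf _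
lemma CX1_dxc {f : ℝ × ℝ × ℝ → ℝ} (hf : ContDiff ℝ 1 f) : Continuous (dx f) := CX1_cont hf _
lemma CX1_dyc {f : ℝ × ℝ × ℝ → ℝ} (hf : ContDiff ℝ 1 f) : Continuous (dy f) := CX1_cont hf _

lemma CX1_lapc {f : ℝ × ℝ × ℝ → ℝ} (hf : ContDiff ℝ 2 f) : Continuous (lap f) := by
  obtain ⟨_, hx, hy, _⟩ := NC_c1 hf
  exact (CX1_dxc hx).add (CX1_dyc hy)

lemma CX1_lap_sub {f g : ℝ × ℝ × ℝ → ℝ} (hf : ContDiff ℝ 2 f) (hg : ContDiff ℝ 2 g)
    (z : ℝ × ℝ × ℝ) : lap (fun z => f z - g z) z = lap f z - lap g z := by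
  obtain ⟨_, fx, fy, _⟩ := NC_c1 hf
  obtain ⟨_, gx, gy, _⟩ := NC_c1 hg
  simp only [lap]
  rw [NC_dx_sub (NC_d2 hf) (NC_d2 hg), NC_dy_sub (NC_d2 hf) (NC_d2 hg),
    NC_dx_sub (NC_d1 fx) (NC_d1 gx), NC_dy_sub (NC_d1 fy) (NC_d1 gy)]
  ring

/-- Laplacians of the components of a divergence free field. -/
lemma CX1_lap {U : Set (ℝ × ℝ × ℝ)} (hU : IsOpen U) {A B : ℝ × ℝ × ℝ → ℝ}
    (hA : ContDiff ℝ 2 A) (hB : ContDiff ℝ 2 B) (hd : ∀ z ∈ U, dx A z + dy B z = 0) :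
    ∀ z ∈ U, lap A z = -dy (vort A B) z ∧ lap B z = dx (vort A B) z := by
  intro z hz
  obtain ⟨_, ax, ay, _, _, axy⟩ := NC_c1 hA
  obtain ⟨_, bx, bb, _, _, bxy⟩ := NC_c1 hB
  have x1 : dx (dx A) z + dx (dy B) z = 0 :=
    NC_add hU (0, 1, 0) (NC_d1 ax) (NC_d1 bb) hd z hz
  have y1 : dy (dx A) z + dy (dy B) z = 0 :=
    NC_add hU (0, 0, 1) (NC_d1 ax) (NC_d1 bb) hd z hz
  have e : vort A B = fun z => dx B z - dy A z := rfl
  rw [e, NC_dx_sub (NC_d1 bx) (NC_d1 ay), NC_dy_sub (NC_d1 bx) (NC_d1 ay)]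
  simp only [lap]
  rw [bxy] at x1
  rw [axy]
  constructor
  · linarith
  · linarith

lemma CX1_open (r R : ℝ) : IsOpen (Ring r R) := by
  have h1 : IsOpen {q : ℝ × ℝ | r ^ 2 < q.1 ^ 2 + q.2 ^ 2} :=
    isOpen_lt continuous_const (by fun_prop)
  have h2 : IsOpen {q : ℝ × ℝ | q.1 ^ 2 + q.2 ^ 2 < R ^ 2} :=
    isOpen_lt (by fun_prop) continuous_const
  exact h1.inter h2

/-- Closure lemma. -/
lemma CX1_cl {R ρ : ℝ} (hR : 0 < R) (h0 : 0 ≤ ρ) (hρ : ρ < R) {F : ℝ × ℝ × ℝ → ℝ}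
    (hF : Continuous F) (t : ℝ) (h : ∀ q ∈ Ring ρ R, F (t, q) = 0) :
    ∀ q ∈ Circ R, F (t, q) = 0 := by
  intro q hq
  have hq' : q.1 ^ 2 + q.2 ^ 2 = R ^ 2 := hq
  have hc : Continuous (fun l : ℝ => F (t, (l * q.1, l * q.2))) := by
    apply hF.comp
    fun_prop
  have hcl : IsClosed {l : ℝ | F (t, (l * q.1, l * q.2)) = 0} := isClosed_eq hc continuous_const
  have hlt : ρ / R < 1 := (div_lt_one hR).2 hρ
  have hsub : Ioo (ρ / R) 1 ⊆ {l : ℝ | F (t, (l * q.1, l * q.2)) = 0} := by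
    rintro l ⟨h1, h2⟩
    have hl0 : 0 ≤ ρ / R := div_nonneg h0 hR.le
    have hl : 0 < l := lt_of_le_of_lt hl0 h1
    apply h
    have e : (l * q.1) ^ 2 + (l * q.2) ^ 2 = (l * R) ^ 2 := by
      calc (l * q.1) ^ 2 + (l * q.2) ^ 2 = l ^ 2 * (q.1 ^ 2 + q.2 ^ 2) := by ring
        _ = (l * R) ^ 2 := by rw [hq']; ring
    have h3 : ρ < l * R := (div_lt_iff₀ hR).1 h1
    have h4 : l * R < R := by nlinarith
    constructor
    · show ρ ^ 2 < (l * q.1) ^ 2 + (l * q.2) ^ 2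
      rw [e]
      exact pow_lt_pow_left₀ h3 h0 (by norm_num)
    · show (l * q.1) ^ 2 + (l * q.2) ^ 2 < R ^ 2
      rw [e]
      exact pow_lt_pow_left₀ h4 (by positivity) (by norm_num)
  have h1 : (1 : ℝ) ∈ closure (Ioo (ρ / R) 1) := by
    rw [closure_Ioo (ne_of_lt hlt)]
    exact ⟨hlt.le, le_rfl⟩
  have h2 := closure_minimal hsub hcl h1
  have h3 : F (t, (1 * q.1, 1 * q.2)) = 0 := h2
  simpa using h3

/-- The time derivatives of a function which is the same at two space points. -/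
lemma CX1_dt {f : ℝ × ℝ × ℝ → ℝ} (hf : Differentiable ℝ f) {t1 t : ℝ} (ht : t < t1)
    {q q' : ℝ × ℝ} (h : ∀ s < t1, f (s, q) = f (s, q')) : dt f (t, q) = dt f (t, q') := by
  have h1 := NC_line hf (t, q) (1, 0, 0)
  have h2 := NC_line hf (t, q') (1, 0, 0)
  have e : (fun s : ℝ => f (((t, q) : ℝ × ℝ × ℝ) + s • ((1, 0, 0) : ℝ × ℝ × ℝ))) =ᶠ[𝓝 0]
      fun s : ℝ => f (((t, q') : ℝ × ℝ × ℝ) + s • ((1, 0, 0) : ℝ × ℝ × ℝ)) := by
    have hm : Iio (t1 - t) ∈ 𝓝 (0 : ℝ) := Iio_mem_nhds (by linarith)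
    filter_upwards [hm] with s hs
    have e1 : ((t, q) : ℝ × ℝ × ℝ) + s • ((1, 0, 0) : ℝ × ℝ × ℝ) = (t + s, q) := by
      ext <;> simp
    have e2 : ((t, q') : ℝ × ℝ × ℝ) + s • ((1, 0, 0) : ℝ × ℝ × ℝ) = (t + s, q') := by
      ext <;> simp
    rw [e1, e2]
    exact h _ (by have : s < t1 - t := hs; linarith)
  exact (h1.congr_of_eventuallyEq e.symm).unique h2

lemma CX1_one (hKS : KS_stmt) (hRO : RO_stmt) (hRX : RX_stmt) (hKG : KG_stmt)
    {ν R t1 K ρ : ℝ} {a b : ℝ × ℝ × ℝ → ℝ} (hν : 0 < ν) (hR : 0 < R)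
    (ha : ContDiff ℝ 3 a) (hb : ContDiff ℝ 3 b) (h0 : 0 ≤ ρ) (hρ : ρ < R)
    (hv : ∀ t, ∀ q ∈ Ring ρ R, dt (vort a b) (t, q) + a (t, q) * dx (vort a b) (t, q)
      + b (t, q) * dy (vort a b) (t, q) - ν * lap (vort a b) (t, q) = 0)
    (hd : ∀ t, ∀ q ∈ Ring ρ R, dx a (t, q) + dy b (t, q) = 0)
    (hz : ∀ t, ∀ q ∈ Circ R, a (t, q) = 0 ∧ b (t, q) = 0)
    (hK : ∀ z, |a z| ≤ K ∧ |b z| ≤ K ∧ |dx (vort a b) z| ≤ K ∧ |dy (vort a b) z| ≤ K)
    (hc : ∀ t < t1, ∀ q ∈ Circ R, vort a b (t, q) = vort a b (t, (R, 0)))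
    (hg : ∀ t < t1, ∀ q ∈ Circ R, dx (vort a b) (t, q) = 0 ∧ dy (vort a b) (t, q) = 0) :
    RI (Iio t1) (Ring ρ R) a b := by
  intro α
  have ha2 : ContDiff ℝ 2 a := ha.of_le (by norm_num)
  have hb2 : ContDiff ℝ 2 b := hb.of_le (by norm_num)
  obtain ⟨_, _, hay, _⟩ := NC_c2 ha
  obtain ⟨_, hbx, _, _⟩ := NC_c2 hb
  have hω : ContDiff ℝ 2 (vort a b) := hbx.sub hay
  obtain ⟨hrω, hra, hrb, hro⟩ := hRO α (vort a b) a b hω ha2 hb2
  obtain ⟨ωt, ωx, ωy, _⟩ := NC_c1 hω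
  have hvr : vort (rfa α a b) (rfb α a b) = rs α (vort a b) := by
    funext z
    exact (hro z).2.2.2.2.2.2.2.2.2.1
  -- rotations preserve the ring and the circle
  have hrn : ∀ q : ℝ × ℝ, (rot (-α) q).1 ^ 2 + (rot (-α) q).2 ^ 2 = q.1 ^ 2 + q.2 ^ 2 :=
    fun q => (hRX (-α) q).1
  have hrr : ∀ q ∈ Ring ρ R, rot (-α) q ∈ Ring ρ R := by
    rintro q ⟨h1, h2⟩
    exact ⟨by rw [hrn q]; exact h1, by rw [hrn q]; exact h2⟩
  have hrc : ∀ q ∈ Circ R, rot (-α) q ∈ Circ R := by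
    intro q hq
    have hq' : q.1 ^ 2 + q.2 ^ 2 = R ^ 2 := hq
    show (rot (-α) q).1 ^ 2 + (rot (-α) q).2 ^ 2 = R ^ 2
    rw [hrn q, hq']
  have hRC : ((R, 0) : ℝ × ℝ) ∈ Circ R := by
    show R ^ 2 + 0 ^ 2 = R ^ 2
    ring
  -- divergence of the rotated field
  have hdr : ∀ t, ∀ q ∈ Ring ρ R, dx (rfa α a b) (t, q) + dy (rfb α a b) (t, q) = 0 := by
    intro t q hq
    rw [(hro (t, q)).2.2.2.2.2.2.2.2.1]
    exact hd t _ (hrr q hq)
  obtain ⟨_, rax, _, _⟩ := NC_c1 hra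
  obtain ⟨_, _, rby, _⟩ := NC_c1 hrb
  obtain ⟨_, ax, _, _⟩ := NC_c1 ha2
  obtain ⟨_, _, bby, _⟩ := NC_c1 hb2
  have hdc : ∀ t, ∀ q ∈ Circ R, dx a (t, q) + dy b (t, q) = 0 := fun t =>
    CX1_cl (F := fun z => dx a z + dy b z) hR h0 hρ (ax.continuous.add bby.continuous) t (hd t)
  have hdrc : ∀ t, ∀ q ∈ Circ R, dx (rfa α a b) (t, q) + dy (rfb α a b) (t, q) = 0 := fun t =>
    CX1_cl (F := fun z => dx (rfa α a b) z + dy (rfb α a b) z) hR h0 hρ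
      (rax.continuous.add rby.continuous) t (hdr t)
  have hzr : ∀ t, ∀ q ∈ Circ R, rfa α a b (t, q) = 0 ∧ rfb α a b (t, q) = 0 := by
    intro t q hq
    obtain ⟨h1, h2⟩ := hz t _ (hrc q hq)
    constructor
    · simp only [rfa]
      rw [h1, h2]
      ring
    · simp only [rfb]
      rw [h1, h2]
      ring
  -- the three functions
  set v : ℝ × ℝ × ℝ → ℝ := fun z => a z - rfa α a b z with hvdef
  set w : ℝ × ℝ × ℝ → ℝ := fun z => b z - rfb α a b z with hwdef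
  set ζ : ℝ × ℝ × ℝ → ℝ := fun z => vort a b z - rs α (vort a b) z with hζdef
  have cv : ContDiff ℝ 2 v := ha2.sub hra
  have cw : ContDiff ℝ 2 w := hb2.sub hrb
  have cζ : ContDiff ℝ 2 ζ := hω.sub hrω
  have dxv : dx v = fun z => dx a z - dx (rfa α a b) z := NC_dx_sub (NC_d2 ha2) (NC_d2 hra)
  have dyv : dy v = fun z => dy a z - dy (rfa α a b) z := NC_dy_sub (NC_d2 ha2) (NC_d2 hra)
  have dxw : dx w = fun z => dx b z - dx (rfb α a b) z := NC_dx_sub (NC_d2 hb2) (NC_d2 hrb)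
  have dyw : dy w = fun z => dy b z - dy (rfb α a b) z := NC_dy_sub (NC_d2 hb2) (NC_d2 hrb)
  have dtζ : dt ζ = fun z => dt (vort a b) z - dt (rs α (vort a b)) z :=
    NC_dt_sub (NC_d2 hω) (NC_d2 hrω)
  have dxζ : dx ζ = fun z => dx (vort a b) z - dx (rs α (vort a b)) z :=
    NC_dx_sub (NC_d2 hω) (NC_d2 hrω)
  have dyζ : dy ζ = fun z => dy (vort a b) z - dy (rs α (vort a b)) z :=
    NC_dy_sub (NC_d2 hω) (NC_d2 hrω)
  have hUo : IsOpen ((univ : Set ℝ) ×ˢ Ring ρ R) := isOpen_univ.prod (CX1_open ρ R)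
  have L1 := CX1_lap hUo ha2 hb2 (fun z hz => hd z.1 z.2 hz.2)
  have L2 := CX1_lap hUo hra hrb (fun z hz => hdr z.1 z.2 hz.2)
  have lapv : ∀ t, ∀ q ∈ Ring ρ R, lap v (t, q) = -dy ζ (t, q) := by
    intro t q hq
    rw [hvdef, CX1_lap_sub ha2 hra, (L1 (t, q) ⟨mem_univ _, hq⟩).1,
      (L2 (t, q) ⟨mem_univ _, hq⟩).1, hvr, dyζ]
    ring
  have lapw : ∀ t, ∀ q ∈ Ring ρ R, lap w (t, q) = dx ζ (t, q) := by
    intro t q hq
    rw [hwdef, CX1_lap_sub hb2 hrb, (L1 (t, q) ⟨mem_univ _, hq⟩).2,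
      (L2 (t, q) ⟨mem_univ _, hq⟩).2, hvr, dxζ]
  have lapζ : ∀ z, lap ζ z = lap (vort a b) z - lap (vort a b) (z.1, rot (-α) z.2) := by
    intro z
    rw [hζdef, CX1_lap_sub hω hrω, (hro z).2.2.2.1]
    rfl
  obtain ⟨_, ζx, ζy, _⟩ := NC_c1 cζ
  have hK0 : 0 ≤ K := le_trans (abs_nonneg _) (hK (0, 0, 0)).1
  -- values on the circle
  have hζ0 : ∀ t < t1, ∀ q ∈ Circ R, ζ (t, q) = 0 := by
    intro t ht q hq
    show vort a b (t, q) - vort a b (t, rot (-α) q) = 0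
    rw [hc t ht q hq, hc t ht _ (hrc q hq), sub_self]
  have hζg : ∀ t < t1, ∀ q ∈ Circ R, dx ζ (t, q) = 0 ∧ dy ζ (t, q) = 0 := by
    intro t ht q hq
    obtain ⟨g1, g2⟩ := hg t ht q hq
    obtain ⟨g3, g4⟩ := hg t ht _ (hrc q hq)
    obtain ⟨_, rx, ry, _⟩ := hro (t, q)
    have r1 : rs α (dx (vort a b)) (t, q) = 0 := g3
    have r2 : rs α (dy (vort a b)) (t, q) = 0 := g4
    constructor
    · rw [dxζ]
      show dx (vort a b) (t, q) - dx (rs α (vort a b)) (t, q) = 0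
      rw [rx, g1, r1, r2]
      ring
    · rw [dyζ]
      show dy (vort a b) (t, q) - dy (rs α (vort a b)) (t, q) = 0
      rw [ry, g2, r1, r2]
      ring
  have hωl : ∀ t, ∀ q ∈ Circ R, ν * lap (vort a b) (t, q) = dt (vort a b) (t, q) := by
    intro t q hq
    have h1 := CX1_cl (F := fun z => dt (vort a b) z + a z * dx (vort a b) z
      + b z * dy (vort a b) z - ν * lap (vort a b) z) hR h0 hρ
      (((ωt.continuous.add (ha.continuous.mul ωx.continuous)).add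
        (hb.continuous.mul ωy.continuous)).sub (continuous_const.mul (CX1_lapc hω))) t (hv t) q hq
    obtain ⟨z1, z2⟩ := hz t q hq
    simp only [z1, z2] at h1
    linarith
  have hζl : ∀ t < t1, ∀ q ∈ Circ R, lap ζ (t, q) = 0 := by
    intro t ht q hq
    rw [lapζ]
    have h1 := hωl t q hq
    have h2 := hωl t _ (hrc q hq)
    have h3 : dt (vort a b) (t, q) = dt (vort a b) (t, rot (-α) q) := by
      apply CX1_dt (NC_d2 hω) ht
      intro s hs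
      rw [hc s hs q hq, hc s hs _ (hrc q hq)]
    have h4 : ν * (lap (vort a b) (t, q) - lap (vort a b) (t, rot (-α) q)) = 0 := by
      rw [mul_sub, h1, h2, h3, sub_self]
    rcases mul_eq_zero.1 h4 with h5 | h5
    · exact absurd h5 hν.ne'
    · exact h5
  have hR2 : R ^ 2 ≠ 0 := pow_ne_zero _ hR.ne'
  have hvg : ∀ t < t1, ∀ q ∈ Circ R, (dx v (t, q) = 0 ∧ dy v (t, q) = 0) ∧
      (dx w (t, q) = 0 ∧ dy w (t, q) = 0) := by
    intro t ht q hq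
    obtain ⟨k1, k2, k3, k4⟩ := hKG R t a b hR ha2 hb2 (hz t) (hdc t) q hq
    obtain ⟨l1, l2, l3, l4⟩ := hKG R t _ _ hR hra hrb (hzr t) (hdrc t) q hq
    have e : vort (rfa α a b) (rfb α a b) (t, q) = vort a b (t, q) := by
      rw [hvr]
      have := hζ0 t ht q hq
      have h2 : vort a b (t, q) - rs α (vort a b) (t, q) = 0 := this
      linarith
    rw [e] at l1 l2 l3 l4
    have key : ∀ x y c : ℝ, R ^ 2 * x = c → R ^ 2 * y = c → x - y = 0 := by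
      intro x y c h1 h2
      have : R ^ 2 * (x - y) = 0 := by rw [mul_sub, h1, h2, sub_self]
      exact (mul_eq_zero.1 this).resolve_left hR2
    rw [dxv, dyv, dxw, dyw]
    exact ⟨⟨key _ _ _ k1 l1, key _ _ _ k2 l2⟩, ⟨key _ _ _ k3 l3, key _ _ _ k4 l4⟩⟩
  have hvl : ∀ t < t1, ∀ q ∈ Circ R, lap v (t, q) = 0 := by
    intro t ht q hq
    have h1 := CX1_cl (F := fun z => lap v z + dy ζ z) hR h0 hρ
      ((CX1_lapc cv).add ζy.continuous) t (fun q hq => by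
        show lap v (t, q) + dy ζ (t, q) = 0
        rw [lapv t q hq]
        ring) q hq
    have h2 : lap v (t, q) + dy ζ (t, q) = 0 := h1
    rw [(hζg t ht q hq).2] at h2
    linarith
  have hwl : ∀ t < t1, ∀ q ∈ Circ R, lap w (t, q) = 0 := by
    intro t ht q hq
    have h1 := CX1_cl (F := fun z => lap w z - dx ζ z) hR h0 hρ
      ((CX1_lapc cw).sub ζx.continuous) t (fun q hq => by
        show lap w (t, q) - dx ζ (t, q) = 0
        rw [lapw t q hq]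
        ring) q hq
    have h2 : lap w (t, q) - dx ζ (t, q) = 0 := h1
    rw [(hζg t ht q hq).1] at h2
    linarith
  have hv0 : ∀ t, ∀ q ∈ Circ R, v (t, q) = 0 ∧ w (t, q) = 0 := by
    intro t q hq
    obtain ⟨z1, z2⟩ := hz t q hq
    obtain ⟨z3, z4⟩ := hzr t q hq
    constructor
    · show a (t, q) - rfa α a b (t, q) = 0
      rw [z1, z3, sub_zero]
    · show b (t, q) - rfb α a b (t, q) = 0
      rw [z2, z4, sub_zero]
  -- the differential inequality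
  have hin : ∀ t, ∀ q ∈ Ring ρ R,
      |lap v (t, q)| + |lap w (t, q)| + |heat ν ζ (t, q)| ≤ (1 + 2 * K) * XX v w ζ (t, q) := by
    intro t q hq
    have hq' := hrr q hq
    rw [lapv t q hq, lapw t q hq, abs_neg]
    obtain ⟨r1, r2, r3, r4, _, _, _, _, _, _, r5, _⟩ := hro (t, q)
    have e1 := hv t q hq
    have e2 := hv t _ hq'
    have e3 : heat ν ζ (t, q) = (dt (vort a b) (t, q) - ν * lap (vort a b) (t, q))
        - (dt (vort a b) (t, rot (-α) q) - ν * lap (vort a b) (t, rot (-α) q)) := by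
      have h1 : heat ν ζ (t, q) = dt ζ (t, q) - ν * lap ζ (t, q) := rfl
      rw [h1, dtζ, lapζ]
      show dt (vort a b) (t, q) - dt (rs α (vort a b)) (t, q) - ν * _ = _
      rw [r1]
      show dt (vort a b) (t, q) - dt (vort a b) (t, rot (-α) q) - ν * _ = _
      ring
    have r5' : rfa α a b (t, q) * dx (rs α (vort a b)) (t, q)
        + rfb α a b (t, q) * dy (rs α (vort a b)) (t, q)
        = a (t, rot (-α) q) * dx (vort a b) (t, rot (-α) q)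
          + b (t, rot (-α) q) * dy (vort a b) (t, rot (-α) q) := r5
    have d1 : dx ζ (t, q) = dx (vort a b) (t, q) - dx (rs α (vort a b)) (t, q) := by rw [dxζ]
    have d2 : dy ζ (t, q) = dy (vort a b) (t, q) - dy (rs α (vort a b)) (t, q) := by rw [dyζ]
    have d3 : v (t, q) = a (t, q) - rfa α a b (t, q) := rfl
    have d4 : w (t, q) = b (t, q) - rfb α a b (t, q) := rfl
    have e4 : heat ν ζ (t, q) = -(a (t, q) * dx ζ (t, q) + b (t, q) * dy ζ (t, q)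
        + v (t, q) * dx (rs α (vort a b)) (t, q) + w (t, q) * dy (rs α (vort a b)) (t, q)) := by
      rw [e3, d1, d2, d3, d4]
      linear_combination e1 - e2 - r5'
    obtain ⟨b1, b2, b3, b4⟩ := hK (t, q)
    obtain ⟨_, _, b5, b6⟩ := hK (t, rot (-α) q)
    have b5' : |rs α (dx (vort a b)) (t, q)| ≤ K := b5
    have b6' : |rs α (dy (vort a b)) (t, q)| ≤ K := b6
    have c1 : |dx (rs α (vort a b)) (t, q)| ≤ 2 * K := by
      rw [r2]
      calc _ ≤ |Real.cos α * rs α (dx (vort a b)) (t, q)|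
            + |Real.sin α * rs α (dy (vort a b)) (t, q)| := abs_sub _ _
        _ ≤ 1 * K + 1 * K := by
            rw [abs_mul, abs_mul]
            exact add_le_add (mul_le_mul (Real.abs_cos_le_one α) b5' (abs_nonneg _) zero_le_one)
              (mul_le_mul (Real.abs_sin_le_one α) b6' (abs_nonneg _) zero_le_one)
        _ = 2 * K := by ring
    have c2 : |dy (rs α (vort a b)) (t, q)| ≤ 2 * K := by
      rw [r3]
      calc _ ≤ |Real.sin α * rs α (dx (vort a b)) (t, q)|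
            + |Real.cos α * rs α (dy (vort a b)) (t, q)| := abs_add_le _ _
        _ ≤ 1 * K + 1 * K := by
            rw [abs_mul, abs_mul]
            exact add_le_add (mul_le_mul (Real.abs_sin_le_one α) b5' (abs_nonneg _) zero_le_one)
              (mul_le_mul (Real.abs_cos_le_one α) b6' (abs_nonneg _) zero_le_one)
        _ = 2 * K := by ring
    have m1 : |a (t, q) * dx ζ (t, q)| ≤ K * |dx ζ (t, q)| := by
      rw [abs_mul]
      exact mul_le_mul_of_nonneg_right b1 (abs_nonneg _)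
    have m2 : |b (t, q) * dy ζ (t, q)| ≤ K * |dy ζ (t, q)| := by
      rw [abs_mul]
      exact mul_le_mul_of_nonneg_right b2 (abs_nonneg _)
    have m3 : |v (t, q) * dx (rs α (vort a b)) (t, q)| ≤ |v (t, q)| * (2 * K) := by
      rw [abs_mul]
      exact mul_le_mul_of_nonneg_left c1 (abs_nonneg _)
    have m4 : |w (t, q) * dy (rs α (vort a b)) (t, q)| ≤ |w (t, q)| * (2 * K) := by
      rw [abs_mul]
      exact mul_le_mul_of_nonneg_left c2 (abs_nonneg _)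
    have e5 : |heat ν ζ (t, q)| ≤ K * |dx ζ (t, q)| + K * |dy ζ (t, q)| + |v (t, q)| * (2 * K)
        + |w (t, q)| * (2 * K) := by
      rw [e4, abs_neg]
      have s1 := abs_add_le (a (t, q) * dx ζ (t, q) + b (t, q) * dy ζ (t, q)
        + v (t, q) * dx (rs α (vort a b)) (t, q)) (w (t, q) * dy (rs α (vort a b)) (t, q))
      have s2 := abs_add_le (a (t, q) * dx ζ (t, q) + b (t, q) * dy ζ (t, q))
        (v (t, q) * dx (rs α (vort a b)) (t, q))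
      have s3 := abs_add_le (a (t, q) * dx ζ (t, q)) (b (t, q) * dy ζ (t, q))
      linarith
    have n1 := abs_nonneg (v (t, q))
    have n2 := abs_nonneg (w (t, q))
    have n3 := abs_nonneg (ζ (t, q))
    have n4 := abs_nonneg (dx v (t, q))
    have n5 := abs_nonneg (dy v (t, q))
    have n6 := abs_nonneg (dx w (t, q))
    have n7 := abs_nonneg (dy w (t, q))
    have n8 := abs_nonneg (dx ζ (t, q))
    have n9 := abs_nonneg (dy ζ (t, q))
    have hX : |v (t, q)| + |w (t, q)| + |dx ζ (t, q)| + |dy ζ (t, q)| ≤ XX v w ζ (t, q) := by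
      simp only [XX]
      linarith
    have p1 : 0 ≤ K * |dx ζ (t, q)| := mul_nonneg hK0 n8
    have p2 : 0 ≤ K * |dy ζ (t, q)| := mul_nonneg hK0 n9
    calc |dy ζ (t, q)| + |dx ζ (t, q)| + |heat ν ζ (t, q)|
        ≤ (1 + 2 * K) * (|v (t, q)| + |w (t, q)| + |dx ζ (t, q)| + |dy ζ (t, q)|) := by
          nlinarith
      _ ≤ (1 + 2 * K) * XX v w ζ (t, q) := mul_le_mul_of_nonneg_left hX (by linarith)
  intro t ht q hq
  have ht' : t < t1 := ht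
  have hcirc : ∀ F ∈ ({v, w, ζ} : Set (ℝ × ℝ × ℝ → ℝ)), ∀ s ∈ Ioo (t - 1) t1, ∀ q ∈ Circ R,
      F (s, q) = 0 ∧ dx F (s, q) = 0 ∧ dy F (s, q) = 0 ∧ lap F (s, q) = 0 := by
    intro F hF s hs x hx
    have hs1 : s < t1 := hs.2
    simp only [mem_insert_iff, mem_singleton_iff] at hF
    rcases hF with rfl | rfl | rfl
    · exact ⟨(hv0 s x hx).1, (hvg s hs1 x hx).1.1, (hvg s hs1 x hx).1.2, hvl s hs1 x hx⟩
    · exact ⟨(hv0 s x hx).2, (hvg s hs1 x hx).2.1, (hvg s hs1 x hx).2.2, hwl s hs1 x hx⟩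
    · exact ⟨hζ0 s hs1 x hx, (hζg s hs1 x hx).1, (hζg s hs1 x hx).2, hζl s hs1 x hx⟩
  have hfin := hKS R ρ (t - 1) t1 ν (1 + 2 * K) v w ζ h0 hρ hν cv cw cζ hcirc
    (fun s _ x hx => hin s x hx) t ⟨by linarith, ht'⟩ q hq
  have f1 : a (t, q) - rfa α a b (t, q) = 0 := hfin.1
  have f2 : b (t, q) - rfb α a b (t, q) = 0 := hfin.2.1
  exact ⟨by linarith, by linarith⟩

theorem CX1 (hKS : KS_stmt) (hRO : RO_stmt) (hRX : RX_stmt) (hKG : KG_stmt) (hKF : KF_stmt)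
    (hCN : CN_stmt) (hCF : CF_stmt) : CX1_stmt := by
  intro Ω ν R t1 G a1 b1 a2 b2 a b m n hc ρ h0 hρ hring hG
  have hR : 0 < R := hc.oc.pos
  have hfr : ∀ q ∈ Circ R, q ∈ frontier Ω := fun q hq => ((hKF Ω R hc.op hc.oc).2 q hq).1
  obtain ⟨K, hK⟩ := hc.bd
  have hCF' := hCF Ω ν R t1 G a1 b1 a2 b2 a b m n hc
  have hCN' := (hCN Ω ν R t1 G a1 b1 a2 b2 a b m n hc).1
  have c1a : ContDiff ℝ 2 a1 := hc.ca1.of_le (by norm_num)
  have c1b : ContDiff ℝ 2 b1 := hc.cb1.of_le (by norm_num)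
  have c2a : ContDiff ℝ 2 a2 := hc.ca2.of_le (by norm_num)
  have c2b : ContDiff ℝ 2 b2 := hc.cb2.of_le (by norm_num)
  obtain ⟨_, _, a1y, _⟩ := NC_c2 hc.ca1
  obtain ⟨_, b1x, _, _⟩ := NC_c2 hc.cb1
  obtain ⟨_, _, a2y, _⟩ := NC_c2 hc.ca2
  obtain ⟨_, b2x, _, _⟩ := NC_c2 hc.cb2
  have hω1 : ContDiff ℝ 2 (vort a1 b1) := b1x.sub a1y
  have hω2 : ContDiff ℝ 2 (vort a2 b2) := b2x.sub a2y
  have e1 : vort m n = fun z => (vort a1 b1 z + vort a2 b2 z) / 2 := by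
    funext z
    simp only [vort]
    rw [hc.hm, hc.hn, NC_dx_avg (NC_d2 c1b) (NC_d2 c2b), NC_dy_avg (NC_d2 c1a) (NC_d2 c2a)]
    ring
  have e2 : vort a b = fun z => vort a1 b1 z - vort a2 b2 z := by
    funext z
    simp only [vort]
    rw [hc.ha, hc.hb, NC_dx_sub (NC_d2 c1b) (NC_d2 c2b), NC_dy_sub (NC_d2 c1a) (NC_d2 c2a)]
    ring
  have e3 : dx (vort m n) = fun z => (dx (vort a1 b1) z + dx (vort a2 b2) z) / 2 := by
    rw [e1, NC_dx_avg (NC_d2 hω1) (NC_d2 hω2)]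
  have e4 : dy (vort m n) = fun z => (dy (vort a1 b1) z + dy (vort a2 b2) z) / 2 := by
    rw [e1, NC_dy_avg (NC_d2 hω1) (NC_d2 hω2)]
  have e5 : dx (vort a b) = fun z => dx (vort a1 b1) z - dx (vort a2 b2) z := by
    rw [e2, NC_dx_sub (NC_d2 hω1) (NC_d2 hω2)]
  have e6 : dy (vort a b) = fun z => dy (vort a1 b1) z - dy (vort a2 b2) z := by
    rw [e2, NC_dy_sub (NC_d2 hω1) (NC_d2 hω2)]
  rw [e3, e4, e5, e6] at hCF'
  rw [e1] at hCF'
  rw [e2] at hCN'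
  have hRC : ((R, 0) : ℝ × ℝ) ∈ Circ R := by
    show R ^ 2 + 0 ^ 2 = R ^ 2
    ring
  have hval : ∀ t < t1, ∀ q ∈ Circ R, vort a1 b1 (t, q) = vort a1 b1 (t, (R, 0)) ∧
      vort a2 b2 (t, q) = vort a2 b2 (t, (R, 0)) := by
    intro t ht q hq
    have h1 := (hCF' t ht q hq).1
    have h2 := (hCF' t ht _ hRC).1
    have h3 := hCN' t q hq
    constructor <;> linarith
  have hgr : ∀ t < t1, ∀ q ∈ Circ R, (dx (vort a1 b1) (t, q) = 0 ∧ dy (vort a1 b1) (t, q) = 0) ∧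
      (dx (vort a2 b2) (t, q) = 0 ∧ dy (vort a2 b2) (t, q) = 0) := by
    intro t ht q hq
    obtain ⟨_, h1, h2, h3, h4⟩ := hCF' t ht q hq
    refine ⟨⟨?_, ?_⟩, ?_, ?_⟩ <;> linarith
  refine ⟨CX1_one hKS hRO hRX hKG hc.nu hR hc.ca1 hc.cb1 h0 hρ ?_ ?_ ?_ (K := K) ?_
      (fun t ht q hq => (hval t ht q hq).1) (fun t ht q hq => (hgr t ht q hq).1),
    CX1_one hKS hRO hRX hKG hc.nu hR hc.ca2 hc.cb2 h0 hρ ?_ ?_ ?_ (K := K) ?_
      (fun t ht q hq => (hval t ht q hq).2) (fun t ht q hq => (hgr t ht q hq).2)⟩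
  · intro t q hq
    rw [← hc.v1 t q (hring hq), hG q hq]
  · intro t q hq
    exact hc.d1 t q (hring hq)
  · intro t q hq
    exact hc.z1 t q (hfr q hq)
  · intro z
    obtain ⟨k1, k2, _, _, k3, k4, _⟩ := hK z
    exact ⟨k1, k2, k3, k4⟩
  · intro t q hq
    rw [← hc.v2 t q (hring hq), hG q hq]
  · intro t q hq
    exact hc.d2 t q (hring hq)
  · intro t q hq
    exact hc.z2 t q (hfr q hq)
  · intro z
    obtain ⟨_, _, k1, k2, _, _, k3, k4, _⟩ := hK z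
    exact ⟨k1, k2, k3, k4⟩

end NS
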