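import Pool.Agent.helper42.NS.Spec

set_option autoImplicit false

namespace Pool.Agent.helper42.NS

open Polynomial Matrix

theorem PTS_crk (P : Pt) {t k : ℕ} (H : Matrix (Fin t) (Fin t) ℤ) (B : Fin k → Fin t → Bool)
    (h : Bad P H B) : crk P H ≠ 0 := by
  obtain ⟨u, hu, hu0, -⟩ := h
  have hmax : P.asIdeal.IsMaximal := P.isMaximal
  have hprime : P.asIdeal.IsPrime := hmax.isPrime
  have hdom : IsDomain (KP P) := Ideal.Quotient.isDomain P.asIdeal
  letI : Field (KP P) := Ideal.Quotient.field P.asIdeal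
  have hnt : Nontrivial (EigK (KP P) (lamP P) H) := by
    refine ⟨⟨⟨u, hu⟩, 0, ?_⟩⟩
    intro h0
    exact hu0 (congrArg Subtype.val h0)
  have hpos : 0 < Module.finrank (KP P) (EigK (KP P) (lamP P) H) := Module.finrank_pos
  have : 0 < crk P H := hpos
  omega

theorem PTS_arith (t L : ℕ) (ht : t ≤ 2 ^ L) : t * (L * (t ^ 2 + t)) ≤ 2 ^ (4 * L + 1) := by
  have hL : L ≤ 2 ^ L := Nat.le_of_lt Nat.lt_two_pow_self
  have h1 : t ^ 2 ≤ (2 ^ L) ^ 2 := Nat.pow_le_pow_left ht 2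
  have h2 : t ≤ (2 ^ L) ^ 2 := by
    rcases Nat.eq_zero_or_pos t with h | h
    · rw [h]; exact Nat.zero_le _
    · calc t = t * 1 := (Nat.mul_one t).symm
        _ ≤ t * t := Nat.mul_le_mul_left t h
        _ = t ^ 2 := (sq t).symm
        _ ≤ (2 ^ L) ^ 2 := h1
  calc t * (L * (t ^ 2 + t)) ≤ 2 ^ L * (2 ^ L * ((2 ^ L) ^ 2 + (2 ^ L) ^ 2)) :=
        Nat.mul_le_mul ht (Nat.mul_le_mul hL (Nat.add_le_add h1 h2))
    _ = 2 ^ (4 * L + 1) := by
        rw [pow_succ 2 (4 * L), mul_comm 4 L, pow_mul 2 L 4]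
        ring

theorem PTS (h1 : PTP_stmt) (h2 : DT1_stmt) (h3 : DT2_stmt) (h4 : DT3_stmt) : PTS_stmt := by
  classical
  intro t k L H B hG ht hbad2 s hs
  obtain ⟨l, c, hl, hodd⟩ := h2 t k H B hG.2.2 hbad2
  have hsize := h3 t k L H B l c hG ht hl
  have hne : Matrix.det (Matrix.of fun a j => ((H ^ l a).mulVec (ind (B (c a)))) j) ≠ 0 := by
    intro h0
    rw [h0] at hodd
    exact absurd hodd (by decide)
  obtain ⟨D, hD⟩ : ∃ D : ℤ, D =
    Matrix.det (Matrix.of fun a j => ((H ^ l a).mulVec (ind (B (c a)))) j) := ⟨_, rfl⟩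
  have h4' := fun (P : Pt) (hP : Bad P H B) => h4 t k H B l c P hG.2.2 hP hne
  rw [← hD] at hsize hne
  rw [← hD] at h4'
  have hDpos : D.natAbs ≠ 0 := Int.natAbs_ne_zero.2 hne
  have hsub : s ⊆ D.natAbs.primeFactors.biUnion (fun p => s.filter (fun P => Above p P)) := by
    intro P hP
    obtain ⟨p, hp, hpD, hpP⟩ := h4' P (hs P hP)
    rw [Finset.mem_biUnion]
    exact ⟨p, Nat.mem_primeFactors.2 ⟨hp, hpD, hDpos⟩, Finset.mem_filter.2 ⟨hP, hpP⟩⟩
  have hcard1 : s.card ≤ D.natAbs.primeFactors.card * t := by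
    refine (Finset.card_le_card hsub).trans ?_
    refine Finset.card_biUnion_le_card_mul _ _ _ ?_
    intro p hp
    apply h1 t H p (Nat.prime_of_mem_primeFactors hp) hG.2.2
    intro P hP
    rw [Finset.mem_filter] at hP
    exact ⟨hP.2, PTS_crk P H B (hs P hP.1)⟩
  have hom : D.natAbs.primeFactors.card ≤ L * (t ^ 2 + t) := by
    have e1 : 2 ^ D.natAbs.primeFactors.card ≤ ∏ p ∈ D.natAbs.primeFactors, p := by
      rw [← Finset.prod_const]
      exact Finset.prod_le_prod' (fun p hp => (Nat.prime_of_mem_primeFactors hp).two_le)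
    have e2 : ∏ p ∈ D.natAbs.primeFactors, p ≤ D.natAbs :=
      Nat.le_of_dvd (Nat.pos_of_ne_zero hDpos) (Nat.prod_primeFactors_dvd _)
    exact (Nat.pow_le_pow_iff_right (by norm_num : 1 < 2)).1 ((e1.trans e2).trans hsize)
  calc s.card ≤ D.natAbs.primeFactors.card * t := hcard1
    _ ≤ (L * (t ^ 2 + t)) * t := Nat.mul_le_mul_right t hom
    _ = t * (L * (t ^ 2 + t)) := Nat.mul_comm _ _
    _ ≤ 2 ^ (4 * L + 1) := PTS_arith t L ht

end Pool.Agent.helper42.NS
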